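import Pool.Agent.H.MP_4c7af0_al.FF.P7

/-!
Boomerang subgroups of the non-uniform irreducible lattices of type `SL₂` in positive characteristic.

`K` is a global function field, i.e. a finitely generated field extension of transcendence degree `1` of a
finite field `k`. Its places are the valuation subrings of `K` other than `K` itself. `S` is a finite set of at
least two places and `O_S` the ring of `S`-integers of `K`, the elements of `K` which belong to all valuation
subrings `V ≠ K` outside of `S`. If `Γ` is a group which is commensurable up to finite kernels with `SL₂(O_S)`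
(for example a subgroup of `SL₂(K)` commensurable with `SL₂(O_S)`), then every boomerang subgroup of `Γ` has
finite index or is finite (and central modulo the finite kernel).
-/

namespace Pool.Agent.Results.MP_4c7af0_al.BoomerangFunctionFields

/-- Let `K` be a global function field with finite constant field `k` (or any finite subfield `k`), `S` a finite
set of at least two places. Let `Γ` be a group, `H ≤ Γ` a subgroup of finite index and `φ : H → SL₂(K)` a
homomorphism with finite kernel whose image is commensurable with `SL₂(O_S)`. Then every boomerang subgroup `D`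
of `Γ` has finite index in `Γ`, or is finite with `φ(D ∩ H) ⊆ {1, -1}`. -/
theorem result (k K : Type*) [Field k] [Finite k] [Field K] [Algebra k K]
    [Algebra.EssFiniteType k K] (htr : Algebra.trdeg k K = 1)
    (S : Set (ValuationSubring K)) (hS : S.Finite) (h2 : 2 ≤ S.ncard) (hT : ⊤ ∉ S)
    (Γ : Type*) [Group Γ] (H : Subgroup Γ) (hH : H.FiniteIndex)
    (φ : H →* Matrix.SpecialLinearGroup (Fin 2) K) (hφ : Finite φ.ker)
    (h₁ : (BoomNF.G (BoomFF.OS S)).relIndex φ.range ≠ 0)
    (h₂ : φ.range.relIndex (BoomNF.G (BoomFF.OS S)) ≠ 0)
    (D : Subgroup Γ) (hD : Boom4c.IsBoomerang D) :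
    D.FiniteIndex ∨ (Finite D ∧ ∀ h : H, (h : Γ) ∈ D → φ h = 1 ∨ φ h = -1) :=
  BoomFF.main_FF k K htr S hS h2 hT Γ H hH φ hφ h₁ h₂ D hD

end Pool.Agent.Results.MP_4c7af0_al.BoomerangFunctionFields
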