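import Pool.Agent.H.MP_4c7af0_al.NF.Abs
import Pool.Agent.H.MP_4c7af0_al.NF.Inst

/-!
Boomerang subgroups of the non-uniform irreducible lattices of type `SL₂` in characteristic zero.

`K` is a number field, `S` a finite set of finite places of `K` such that the number of infinite places
plus the number of elements of `S` is at least two, `O_S` the ring of `S`-integers of `K`. If `Γ` is a
group which is commensurable up to finite kernels with `SL₂(O_S)` (for example a subgroup of `SL₂(K)`
commensurable with `SL₂(O_S)`), then every boomerang subgroup of `Γ` has finite index or is finite (and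
central modulo the finite kernel).
-/

namespace Pool.Agent.Results.MP_4c7af0_al.BoomerangNumberFields

open NumberField IsDedekindDomain

/-- Let `K` be a number field, `S` a finite set of finite places, with at least two places in
`S ∪ {infinite places}`. Let `Γ` be a group, `H ≤ Γ` a subgroup of finite index and `φ : H → SL₂(K)` a
homomorphism with finite kernel whose image is commensurable with `SL₂(O_S)`. Then every boomerang
subgroup `D` of `Γ` has finite index in `Γ`, or is finite with `φ(D ∩ H) ⊆ {1, -1}`. -/
theorem result (K : Type*) [Field K] [NumberField K] (S : Set (HeightOneSpectrum (𝓞 K)))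
    (hS : S.Finite) (h2 : 2 ≤ Fintype.card (InfinitePlace K) + S.ncard)
    (Γ : Type*) [Group Γ] (H : Subgroup Γ) (hH : H.FiniteIndex)
    (φ : H →* Matrix.SpecialLinearGroup (Fin 2) K) (hφ : Finite φ.ker)
    (h₁ : (BoomNF.G (S.integer K).toSubring).relIndex φ.range ≠ 0)
    (h₂ : φ.range.relIndex (BoomNF.G (S.integer K).toSubring) ≠ 0)
    (D : Subgroup Γ) (hD : Boom4c.IsBoomerang D) :
    D.FiniteIndex ∨ (Finite D ∧ ∀ h : H, (h : Γ) ∈ D → φ h = 1 ∨ φ h = -1) := by
  obtain ⟨e, he⟩ := BoomNF.exists_infUnit S hS h2
  exact (BoomNF.sring_integer S hS).main_abs he H hH φ hφ h₁ h₂ D hD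

end Pool.Agent.Results.MP_4c7af0_al.BoomerangNumberFields
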