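import Pool.Agent.H.MP_4c7af0_al.RO.G

/-!
Boomerang subgroups of `S`-arithmetic subgroups of groups of `K`-rank one, `K` a number field.

`G` is a subgroup of `GL_n(K)` which contains the torus of the matrices `diag(a^(w 1), .., a^(w n))`, `a ∈ Kˣ` (the
weights `w i` are integers), and a Weyl element `n₀`, and which has the Bruhat decomposition `G = P ∪ P n₀ P` for the
parabolic subgroup `P` of this torus. Let `S` be a finite set of finite places with at least two places in
`S ∪ {infinite places}`. Every boomerang subgroup of a group commensurable with `G(O_S)` either centralises all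
conjugates of the unipotent radical `U` of `P`, or contains, for every conjugate `g U g⁻¹`, a subgroup of finite index
of its intersection with the `S`-arithmetic group.
-/

namespace Pool.Agent.Results.MP_4c7af0_al.BoomerangRankOne

open NumberField IsDedekindDomain

variable {K : Type*} [Field K] {n : ℕ}

/-- `g` is in the parabolic subgroup: `g i j = 0` and `g⁻¹ i j = 0` whenever `w i < w j`. -/
def InP (w : Fin n → ℤ) (g : GL (Fin n) K) : Prop :=
  ∀ i j, w i < w j → g.val i j = 0 ∧ g.inv i j = 0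

/-- `u` is in the unipotent radical: `u` and `u⁻¹` agree with the identity matrix at all `i`, `j` with `w i ≤ w j`. -/
def InU (w : Fin n → ℤ) (u : GL (Fin n) K) : Prop :=
  ∀ i j, w i ≤ w j → u.val i j = (if i = j then 1 else 0) ∧ u.inv i j = (if i = j then 1 else 0)

theorem inP_iff (w : Fin n → ℤ) (g : GL (Fin n) K) : InP w g ↔ g ∈ BoomRO.P w := by
  constructor
  · intro h
    exact ⟨fun i j hij => (h i j (by omega)).1, fun i j hij => (h i j (by omega)).2⟩
  · intro h i j hij
    exact ⟨h.1 i j (by omega), h.2 i j (by omega)⟩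

theorem inU_iff (w : Fin n → ℤ) (u : GL (Fin n) K) : InU w u ↔ u ∈ BoomRO.E w 0 := by
  have key : ∀ M : Matrix (Fin n) (Fin n) K, (∀ i j, w i ≤ w j → M i j = (if i = j then 1 else 0)) ↔
      M - 1 ∈ BoomRO.Fil w (((0 : ℕ) : ℤ) + 1) := by
    intro M
    constructor
    · intro h i j hij
      push_cast at hij
      rw [Matrix.sub_apply, h i j (by omega), Matrix.one_apply, sub_self]
    · intro h i j hij
      have h1 := h i j (by push_cast; omega)
      rw [Matrix.sub_apply, Matrix.one_apply] at h1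
      exact sub_eq_zero.1 h1
  constructor
  · intro h
    exact ⟨(key _).1 fun i j hij => (h i j hij).1, (key _).1 fun i j hij => (h i j hij).2⟩
  · intro h i j hij
    exact ⟨(key _).2 h.1 i j hij, (key _).2 h.2 i j hij⟩

/-- the conjugate `g U g⁻¹` of the unipotent group -/
def conjU (w : Fin n → ℤ) (g : GL (Fin n) K) : Subgroup (GL (Fin n) K) :=
  (BoomRO.cj g (BoomRO.E w 0)).copy {x | InU w (g⁻¹ * x * g)} (by
    ext x
    rw [Set.mem_setOf_eq, inU_iff]
    exact BoomRO.mem_cj.symm)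

/-- the elements of `G` with entries in `A` and inverse with entries in `A` -/
def integral (G : Subgroup (GL (Fin n) K)) (A : Subring K) : Subgroup (GL (Fin n) K) :=
  (G ⊓ BoomRO.GLA (Fin n) A).copy {g | g ∈ G ∧ ∀ i j, g.val i j ∈ A ∧ g.inv i j ∈ A} (by
    ext g
    exact ⟨fun h => ⟨h.1, fun i j => (h.2 i j).1, fun i j => (h.2 i j).2⟩,
      fun h => ⟨h.1, fun i j => ⟨h.2.1 i j, h.2.2 i j⟩⟩⟩)

/-- Let `K` be a number field and `S` a finite set of finite places with at least two places in `S ∪ {infinite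
places}`. Let `G ≤ GL_n(K)` be a group of rank one: it contains the torus `diag(a^(w i))`, a Weyl element `n₀` and
`G = P ∪ P n₀ P`. Let `Γ` be a group with a subgroup `H` and a homomorphism `φ : H → G` whose image is commensurable
with `G(O_S)`. If `D` is a boomerang subgroup of `Γ` then either `φ(D ∩ H)` centralises all `g u g⁻¹`, `g ∈ G`,
`u ∈ G ∩ U`, or for all `g ∈ G` the group `φ(D ∩ H) ∩ g U g⁻¹` has finite index in `φ(H) ∩ g U g⁻¹`. -/
theorem result (K : Type*) [Field K] [NumberField K] (S : Set (HeightOneSpectrum (𝓞 K)))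
    (hS : S.Finite) (h2 : 2 ≤ Fintype.card (InfinitePlace K) + S.ncard)
    (n : ℕ) (w : Fin n → ℤ) (G : Subgroup (GL (Fin n) K))
    (hT : ∀ a : Kˣ, ∃ t ∈ G, t.val = Matrix.diagonal fun i => (a : K) ^ w i)
    (n₀ : GL (Fin n) K) (hn₀ : n₀ ∈ G) (hw : ∀ i j, w i ≠ - w j → n₀.val i j = 0)
    (hB : ∀ g ∈ G, InP w g ∨ ∃ a ∈ G, ∃ b ∈ G, InP w a ∧ InP w b ∧ g = a * n₀ * b)
    (Γ : Type*) [Group Γ] (H : Subgroup Γ) (φ : H →* GL (Fin n) K) (hφ : φ.range ≤ G)
    (h₁ : (integral G (S.integer K).toSubring).relIndex φ.range ≠ 0)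
    (h₂ : φ.range.relIndex (integral G (S.integer K).toSubring) ≠ 0)
    (D : Subgroup Γ) (hD : Boom4c.IsBoomerang D) :
    (∀ h : H, (h : Γ) ∈ D → ∀ g ∈ G, ∀ u ∈ G, InU w u → Commute (φ h) (g * u * g⁻¹)) ∨
      ∀ g ∈ G, ((D.subgroupOf H).map φ ⊓ conjU w g).relIndex (φ.range ⊓ conjU w g) ≠ 0 := by
  obtain ⟨e, he⟩ := BoomNF.exists_infUnit S hS h2
  have hT' : ∀ a : Kˣ, BoomRO.tor w a ∈ G := by
    intro a
    obtain ⟨t, ht, ht'⟩ := hT a
    have h3 : BoomRO.tor w a = t := Units.ext ht'.symm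
    rw [h3]
    exact ht
  have hB' : ∀ g ∈ G, g ∈ BoomRO.P w ∨ ∃ a b, a ∈ G ∧ b ∈ G ∧ a ∈ BoomRO.P w ∧ b ∈ BoomRO.P w ∧
      g = a * n₀ * b := by
    intro g hg
    rcases hB g hg with h3 | ⟨a, ha, b, hb, haP, hbP, hab⟩
    · exact Or.inl ((inP_iff w g).1 h3)
    · exact Or.inr ⟨a, b, ha, hb, (inP_iff w a).1 haP, (inP_iff w b).1 hbP, hab⟩
  unfold integral at h₁ h₂
  rw [Subgroup.copy_eq] at h₁ h₂
  have hDΓ : (D.subgroupOf H).map φ ≤ φ.range := by
    rintro _ ⟨x, -, rfl⟩
    exact ⟨x, rfl⟩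
  rcases BoomRO.dichotomy (BoomNF.sring_integer S hS) he hφ hT' hw hB' h₁ h₂ hDΓ
    (BoomRO.rec_of_boom hD H φ) with h3 | h3
  · left
    intro h hh g hg u hu hu'
    exact BoomRO.central_of_fix hn₀ hw (fun g hg => h3 g hg (φ h) ⟨h, hh, rfl⟩) hg hu
      ((inU_iff w u).1 hu')
  · right
    intro g hg
    unfold conjU
    rw [Subgroup.copy_eq]
    exact h3 g hg

end Pool.Agent.Results.MP_4c7af0_al.BoomerangRankOne
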