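import Pool.Agent.H.MP_4c7af0_al.helper93.G
import Pool.Agent.H.MP_4c7af0_al.FF.P7

/-!
Boomerang subgroups of `S`-arithmetic subgroups of groups of `K`-rank one in positive characteristic.

`K` is a global function field, i.e. a finitely generated field extension of transcendence degree `1` of a finite
field `k`. Its places are the valuation subrings of `K` other than `K` itself, `S` is a finite set of at least two
places and `O_S` the ring of `S`-integers of `K`, the elements of `K` which belong to all valuation subrings `V ≠ K`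
outside of `S`. `G` is a subgroup of `GL_n(K)` which contains the torus of the matrices
`diag(a^(w 1), .., a^(w n))`, `a ∈ Kˣ` (the weights `w i` are integers), and a Weyl element `n₀`, and which has the
Bruhat decomposition `G = P ∪ P n₀ P` for the parabolic subgroup `P` of this torus. Every boomerang subgroup of a group
commensurable with `G(O_S)` either centralises all conjugates of the unipotent radical `U` of `P`, or contains, up to
finite index, all cusp groups of the `S`-arithmetic group: for every `g ∈ G` a subgroup of finite index of its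
intersection with `g U g⁻¹`, and a positive power of every element `g t(a) g⁻¹` of the `S`-arithmetic torus
(`a` a unit of `O_S`).
-/

namespace Pool.Agent.Results.MP_4c7af0_al.BoomerangRankOneFF

variable {K : Type*} [Field K] {n : ℕ}

/-- `g` is in the parabolic subgroup: `g i j = 0` and `g⁻¹ i j = 0` whenever `w i < w j`. -/
def InP (w : Fin n → ℤ) (g : GL (Fin n) K) : Prop :=
  ∀ i j, w i < w j → g.val i j = 0 ∧ g.inv i j = 0

/-- `u` is in the unipotent radical: `u` and `u⁻¹` agree with the identity matrix at all `i`, `j` with `w i ≤ w j`. -/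
def InU (w : Fin n → ℤ) (u : GL (Fin n) K) : Prop :=
  ∀ i j, w i ≤ w j → u.val i j = (if i = j then 1 else 0) ∧ u.inv i j = (if i = j then 1 else 0)

theorem inP_iff (w : Fin n → ℤ) (g : GL (Fin n) K) : InP w g ↔ g ∈ BoomRO.P w := by
  constructor
  · intro h
    exact ⟨fun i j hij => (h i j (by omega)).1, fun i j hij => (h i j (by omega)).2⟩
  · intro h i j hij
    exact ⟨h.1 i j (by omega), h.2 i j (by omega)⟩

theorem inU_iff (w : Fin n → ℤ) (u : GL (Fin n) K) : InU w u ↔ u ∈ BoomRO.E w 0 := by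
  have key : ∀ M : Matrix (Fin n) (Fin n) K, (∀ i j, w i ≤ w j → M i j = (if i = j then 1 else 0)) ↔
      M - 1 ∈ BoomRO.Fil w (((0 : ℕ) : ℤ) + 1) := by
    intro M
    constructor
    · intro h i j hij
      push_cast at hij
      rw [Matrix.sub_apply, h i j (by omega), Matrix.one_apply, sub_self]
    · intro h i j hij
      have h1 := h i j (by push_cast; omega)
      rw [Matrix.sub_apply, Matrix.one_apply] at h1
      exact sub_eq_zero.1 h1
  constructor
  · intro h
    exact ⟨(key _).1 fun i j hij => (h i j hij).1, (key _).1 fun i j hij => (h i j hij).2⟩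
  · intro h i j hij
    exact ⟨(key _).2 h.1 i j hij, (key _).2 h.2 i j hij⟩

/-- the conjugate `g U g⁻¹` of the unipotent group -/
def conjU (w : Fin n → ℤ) (g : GL (Fin n) K) : Subgroup (GL (Fin n) K) :=
  (BoomRO.cj g (BoomRO.E w 0)).copy {x | InU w (g⁻¹ * x * g)} (by
    ext x
    rw [Set.mem_ofPred_eq, inU_iff]
    exact BoomRO.mem_cj.symm)

/-- the elements of `G` with entries in `A` and inverse with entries in `A` -/
def integral (G : Subgroup (GL (Fin n) K)) (A : Subring K) : Subgroup (GL (Fin n) K) :=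
  (G ⊓ BoomRO.GLA (Fin n) A).copy {g | g ∈ G ∧ ∀ i j, g.val i j ∈ A ∧ g.inv i j ∈ A} (by
    ext g
    exact ⟨fun h => ⟨h.1, fun i j => (h.2 i j).1, fun i j => (h.2 i j).2⟩,
      fun h => ⟨h.1, fun i j => ⟨h.2.1 i j, h.2.2 i j⟩⟩⟩)

/-- the ring of `S`-integers has a unit `t` with the properties used in the proof -/
theorem exists_cring (k : Type*) [Field k] [Finite k] [Algebra k K] [Algebra.EssFiniteType k K]
    (htr : Algebra.trdeg k K = 1) (S : Set (ValuationSubring K)) (hS : S.Finite) (h2 : 2 ≤ S.ncard)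
    (hT : ⊤ ∉ S) : ∃ t : Kˣ, BoomROF.CRing (BoomFF.OS S) t := by
  obtain ⟨t, ht, hfin, hsep, hSt⟩ := BoomFF.exists_t (k := k) htr S hS h2 hT
  obtain ⟨i1, i2, htower, hfd, hsep', hmap⟩ := BoomFF.bridge ht hfin hsep
  letI := i1
  letI := i2
  have e : algebraMap (Polynomial k) K Polynomial.X = t := by
    rw [hmap]
    simp
  have hF : BoomFF.FRing k (BoomFF.OS S) := by
    refine BoomFF.os_fring S hS ?_
    rw [e]
    exact hSt
  have hfr := hF.fr
  have hinf := hfr.infUnit
  rw [e] at hinf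
  refine ⟨Units.mk0 t hinf.ne, hinf.mem, hinf.inv_mem, fun m hm => hinf.pow_ne m hm, hfr.gring, fun m hm => ?_⟩
  have h3 := hfr.fg m hm
  rw [e] at h3
  exact h3

/-- Let `K` be a global function field with finite constant field `k` (or any finite subfield `k`), `S` a finite set
of at least two places. Let `G ≤ GL_n(K)` be a group of rank one: it contains the torus `diag(a^(w i))`, a Weyl
element `n₀` and `G = P ∪ P n₀ P`. Let `Γ` be a group with a subgroup `H` and a homomorphism `φ : H → G` whose image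
is commensurable with `G(O_S)`. If `D` is a boomerang subgroup of `Γ` then either `φ(D ∩ H)` centralises all
`g u g⁻¹`, `g ∈ G`, `u ∈ G ∩ U`, or for all `g ∈ G` the group `φ(D ∩ H) ∩ g U g⁻¹` has finite index in
`φ(H) ∩ g U g⁻¹` and for every unit `a` of `O_S` there is `s > 0` with `g diag(a^(s w i)) g⁻¹ ∈ φ(D ∩ H)`. -/
theorem result (k K : Type*) [Field k] [Finite k] [Field K] [Algebra k K]
    [Algebra.EssFiniteType k K] (htr : Algebra.trdeg k K = 1)
    (S : Set (ValuationSubring K)) (hS : S.Finite) (h2 : 2 ≤ S.ncard) (hS' : ⊤ ∉ S)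
    (n : ℕ) (w : Fin n → ℤ) (G : Subgroup (GL (Fin n) K))
    (hT : ∀ a : Kˣ, ∃ t ∈ G, t.val = Matrix.diagonal fun i => (a : K) ^ w i)
    (n₀ : GL (Fin n) K) (hn₀ : n₀ ∈ G) (hw : ∀ i j, w i ≠ - w j → n₀.val i j = 0)
    (hB : ∀ g ∈ G, InP w g ∨ ∃ a ∈ G, ∃ b ∈ G, InP w a ∧ InP w b ∧ g = a * n₀ * b)
    (Γ : Type*) [Group Γ] (H : Subgroup Γ) (φ : H →* GL (Fin n) K) (hφ : φ.range ≤ G)
    (h₁ : (integral G (BoomFF.OS S)).relIndex φ.range ≠ 0)
    (h₂ : φ.range.relIndex (integral G (BoomFF.OS S)) ≠ 0)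
    (D : Subgroup Γ) (hD : Boom4c.IsBoomerang D) :
    (∀ h : H, (h : Γ) ∈ D → ∀ g ∈ G, ∀ u ∈ G, InU w u → Commute (φ h) (g * u * g⁻¹)) ∨
      ∀ g ∈ G, ((D.subgroupOf H).map φ ⊓ conjU w g).relIndex (φ.range ⊓ conjU w g) ≠ 0 ∧
        ∀ a : K, a ≠ 0 → a ∈ BoomFF.OS S → a⁻¹ ∈ BoomFF.OS S → ∃ s : ℕ, 0 < s ∧ ∃ h : H, (h : Γ) ∈ D ∧
          (φ h).val = g.val * Matrix.diagonal (fun i => (a ^ s) ^ w i) * g.inv := by
  obtain ⟨t, ht⟩ := exists_cring k htr S hS h2 hS'
  have hT' : ∀ a : Kˣ, BoomRO.tor w a ∈ G := by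
    intro a
    obtain ⟨t, ht, ht'⟩ := hT a
    have h3 : BoomRO.tor w a = t := Units.ext ht'.symm
    rw [h3]
    exact ht
  have hB' : ∀ g ∈ G, g ∈ BoomRO.P w ∨ ∃ a b, a ∈ G ∧ b ∈ G ∧ a ∈ BoomRO.P w ∧ b ∈ BoomRO.P w ∧
      g = a * n₀ * b := by
    intro g hg
    rcases hB g hg with h3 | ⟨a, ha, b, hb, haP, hbP, hab⟩
    · exact Or.inl ((inP_iff w g).1 h3)
    · exact Or.inr ⟨a, b, ha, hb, (inP_iff w a).1 haP, (inP_iff w b).1 hbP, hab⟩
  unfold integral at h₁ h₂
  rw [Subgroup.copy_eq] at h₁ h₂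
  have hDΓ : (D.subgroupOf H).map φ ≤ φ.range := by
    rintro _ ⟨x, -, rfl⟩
    exact ⟨x, rfl⟩
  rcases BoomROF.dich ht hφ hT' hw hB' h₁ h₂ hDΓ (BoomRO.rec_of_boom hD H φ) with h3 | h3
  · left
    intro h hh g hg u hu hu'
    exact BoomROF.central_of_fix ht.inf hn₀ hw (fun g hg => h3 g hg (φ h) ⟨h, hh, rfl⟩) hg hu
      ((inU_iff w u).1 hu')
  · right
    intro g hg
    unfold conjU
    rw [Subgroup.copy_eq]
    refine ⟨(h3 g hg).1, fun a ha0 ha ha' => ?_⟩
    obtain ⟨s, hs, x, hx, hxe⟩ := (h3 g hg).2 (Units.mk0 a ha0) ha ha'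
    refine ⟨s, hs, x, hx, ?_⟩
    rw [hxe]
    rfl

end Pool.Agent.Results.MP_4c7af0_al.BoomerangRankOneFF
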